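import Pool.Agent.LSG.Stmts

/-!
helper70, squad LSG (MP_005a41_gt), row MYC: a Cantor set on which two maps are injective.
-/

set_option autoImplicit false

open MeasureTheory Set Topology

namespace Pool.Agent.LSG.H70

lemma stp (h1 : MukStmt) (h2 : SplStmt) {E : Set K} {φ ψ : K → K} (hφ : Measurable φ)
    (hψ : Measurable ψ) (n1 : ∀ y, mu (E ∩ φ ⁻¹' {y}) = 0) (n2 : ∀ y, mu (E ∩ ψ ⁻¹' {y}) = 0)
    (F : Set K) (hFE : F ⊆ E) (hF : MeasurableSet F) (hpos : 0 < mu F) :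
    ∃ F0 F1 : Set K, F0 ⊆ F ∧ F1 ⊆ F ∧ IsCompact F0 ∧ IsCompact F1 ∧ 0 < mu F0 ∧ 0 < mu F1 ∧
      ∀ x ∈ F0, ∀ y ∈ F1, φ x ≠ φ y ∧ ψ x ≠ ψ y := by
  obtain ⟨-, -, -, hreg⟩ := h1
  have null1 : ∀ A ⊆ E, ∀ y, mu (A ∩ φ ⁻¹' {y}) = 0 := fun A hA y =>
    measure_mono_null (inter_subset_inter_left _ hA) (n1 y)
  have null2 : ∀ A ⊆ E, ∀ y, mu (A ∩ ψ ⁻¹' {y}) = 0 := fun A hA y =>
    measure_mono_null (inter_subset_inter_left _ hA) (n2 y)
  obtain ⟨D, hD, hD1, hD2⟩ := h2 F φ hF hφ hpos (null1 F hFE)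
  have mA0 : MeasurableSet (F ∩ φ ⁻¹' D) := hF.inter (hφ hD)
  have mA1 : MeasurableSet (F \ φ ⁻¹' D) := hF.diff (hφ hD)
  have sA0 : F ∩ φ ⁻¹' D ⊆ E := inter_subset_left.trans hFE
  obtain ⟨D', hD', hE1, hE2⟩ := h2 _ ψ mA0 hψ hD1 (null2 _ sA0)
  have key : 0 < mu ((F \ φ ⁻¹' D) ∩ ψ ⁻¹' D') ∨ 0 < mu ((F \ φ ⁻¹' D) \ ψ ⁻¹' D') := by
    by_contra hc
    push Not at hc
    obtain ⟨c1, c2⟩ := hc
    have : mu (F \ φ ⁻¹' D) ≤ 0 := by
      calc mu (F \ φ ⁻¹' D) = mu (((F \ φ ⁻¹' D) ∩ ψ ⁻¹' D') ∪ ((F \ φ ⁻¹' D) \ ψ ⁻¹' D')) := by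
            rw [inter_union_diff]
        _ ≤ mu ((F \ φ ⁻¹' D) ∩ ψ ⁻¹' D') + mu ((F \ φ ⁻¹' D) \ ψ ⁻¹' D') := measure_union_le _ _
        _ ≤ 0 + 0 := add_le_add c1 c2
        _ = 0 := add_zero 0
    exact absurd hD2 (not_lt.2 this)
  rcases key with hk | hk
  · obtain ⟨C1, hC1, kC1, pC1⟩ := hreg _ (mA1.inter (hψ hD')) hk
    obtain ⟨C0, hC0, kC0, pC0⟩ := hreg _ (mA0.diff (hψ hD')) hE2
    refine ⟨C0, C1, fun x hx => (hC0 hx).1.1, fun x hx => (hC1 hx).1.1, kC0, kC1, pC0, pC1, ?_⟩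
    intro x hx y hy
    have a := hC0 hx
    have b := hC1 hy
    refine ⟨fun e => b.1.2 ?_, fun e => a.2 ?_⟩
    · show φ y ∈ D
      rw [← e]
      exact a.1.2
    · show ψ x ∈ D'
      rw [e]
      exact b.2
  · obtain ⟨C1, hC1, kC1, pC1⟩ := hreg _ (mA1.diff (hψ hD')) hk
    obtain ⟨C0, hC0, kC0, pC0⟩ := hreg _ (mA0.inter (hψ hD')) hE1
    refine ⟨C0, C1, fun x hx => (hC0 hx).1.1, fun x hx => (hC1 hx).1.1, kC0, kC1, pC0, pC1, ?_⟩
    intro x hx y hy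
    have a := hC0 hx
    have b := hC1 hy
    refine ⟨fun e => b.1.2 ?_, fun e => b.2 ?_⟩
    · show φ y ∈ D
      rw [← e]
      exact a.1.2
    · show ψ y ∈ D'
      rw [← e]
      exact a.2

theorem myc (h1 : MukStmt) (h2 : SplStmt) : MycStmt := by
  classical
  intro E φ ψ hE hφ hψ hpos n1 n2
  obtain ⟨C, hCE, kC, pC⟩ := h1.2.2.2 E hE hpos
  let T := {F : Set K // F ⊆ E ∧ IsCompact F ∧ 0 < mu F}
  have hs : ∀ F : T, ∃ G : Bool → T, (∀ b, (G b).1 ⊆ F.1) ∧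
      ∀ b b' : Bool, b ≠ b' → ∀ x ∈ (G b).1, ∀ y ∈ (G b').1, φ x ≠ φ y ∧ ψ x ≠ ψ y := by
    intro F
    obtain ⟨F0, F1, s0, s1, k0, k1, p0, p1, hd⟩ := stp h1 h2 hφ hψ n1 n2 F.1 F.2.1
      F.2.2.1.isClosed.measurableSet F.2.2.2
    refine ⟨fun b => if b = true then ⟨F1, s1.trans F.2.1, k1, p1⟩
      else ⟨F0, s0.trans F.2.1, k0, p0⟩, ?_, ?_⟩
    · intro b
      cases b
      · simpa using s0
      · simpa using s1
    · intro b b' hb x hx y hy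
      cases b <;> cases b'
      · exact absurd rfl hb
      · simp only [Bool.false_eq_true, if_false, if_true] at hx hy
        exact hd x hx y hy
      · simp only [Bool.false_eq_true, if_false, if_true] at hx hy
        have := hd y hy x hx
        exact ⟨fun e => this.1 e.symm, fun e => this.2 e.symm⟩
      · exact absurd rfl hb
  choose nx nx1 nx2 using hs
  let nd : (ℕ → Bool) → ℕ → T := fun σ n => Nat.rec ⟨C, hCE, kC, pC⟩ (fun k F => nx F (σ k)) n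
  have nd0 : ∀ σ, nd σ 0 = ⟨C, hCE, kC, pC⟩ := fun σ => rfl
  have nds : ∀ σ n, nd σ (n + 1) = nx (nd σ n) (σ n) := fun σ n => rfl
  have hP : ∀ σ : ℕ → Bool, ∃ x : K, ∀ n, x ∈ (nd σ n).1 := by
    intro σ
    have := IsCompact.nonempty_iInter_of_sequence_nonempty_isCompact_isClosed
      (fun n => (nd σ n).1) (fun n => by
        show (nd σ (n + 1)).1 ⊆ (nd σ n).1
        rw [nds]
        exact nx1 _ _)
      (fun n => by
        by_contra hc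
        rw [not_nonempty_iff_eq_empty] at hc
        have h4 := (nd σ n).2.2.2
        rw [hc, measure_empty] at h4
        exact lt_irrefl _ h4)
      (nd σ 0).2.2.1 (fun n => (nd σ n).2.2.1.isClosed)
    obtain ⟨x, hx⟩ := this
    exact ⟨x, fun n => mem_iInter.1 hx n⟩
  choose P hP using hP
  have hsep : ∀ σ τ : ℕ → Bool, σ ≠ τ → φ (P σ) ≠ φ (P τ) ∧ ψ (P σ) ≠ ψ (P τ) := by
    intro σ τ hst
    have hex : ∃ n, σ n ≠ τ n := Function.ne_iff.1 hst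
    let n := Nat.find hex
    have hn : σ n ≠ τ n := Nat.find_spec hex
    have hlt : ∀ k < n, σ k = τ k := fun k hk => by
      by_contra hc
      exact Nat.find_min hex hk hc
    have heq : ∀ k, k ≤ n → nd σ k = nd τ k := by
      intro k
      induction k with
      | zero => intro _; rw [nd0, nd0]
      | succ k ih =>
        intro hk
        rw [nds, nds, ih (by omega), hlt k (by omega)]
    have a := hP σ (n + 1)
    have b := hP τ (n + 1)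
    rw [nds] at a b
    rw [heq n le_rfl] at a
    exact nx2 (nd τ n) (σ n) (τ n) hn _ a _ b
  refine ⟨P, fun σ => ?_, fun σ τ h => ?_, fun σ τ h => ?_⟩
  · exact (nd σ 0).2.1 (hP σ 0)
  · by_contra hc
    exact (hsep σ τ hc).1 h
  · by_contra hc
    exact (hsep σ τ hc).2 h

end Pool.Agent.LSG.H70
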